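import Pool.Agent.helper55.RI.SpecV

set_option autoImplicit false

namespace Pool.Agent.RI

open Pool.Agent.helper62 Prog Function Pool.Agent.helper81.PL

theorem V10_len (f : W → W) (hf : PT f) : ∃ k : ℕ, ∀ x : W, (f x).length ≤ (x.length + 2) ^ k := by
  obtain ⟨c, hc⟩ := hf.size
  obtain ⟨k, hk⟩ := X6_poly (c.comp (4 * Polynomial.X + 1))
  refine ⟨k, fun x => ?_⟩
  have h1 : (f x).length ≤ sz (f x) := length_le_sz _
  have h2 : sz (f x) ≤ c.eval (sz x) := hc x
  have h3 : c.eval (sz x) ≤ c.eval (4 * x.length + 1) :=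
    Pool.Agent.H54.PT.pe_mono _ (X1_sz x)
  have h4 := hk x.length
  rw [Polynomial.eval_comp] at h4
  simp only [Polynomial.eval_add, Polynomial.eval_mul, Polynomial.eval_X, Polynomial.eval_one,
    Polynomial.eval_ofNat] at h4
  omega

theorem V10_ck {d D : ℕ} {x y : W} (h : (x.length + 2) ^ d ≤ (y.length + 2) ^ D) :
    ck d x ≤ ck D y := Nat.pow_le_pow_right (by norm_num) h

theorem V10 (hV5 : V5_stmt) : V10_stmt := by
  obtain ⟨-, h2, h3, -, h5⟩ := hV5
  refine ⟨?_, ?_⟩
  · rintro A f ⟨r, d, hr, hA⟩ hf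
    obtain ⟨k, hk⟩ := V10_len f hf
    have hc := h2 d
    refine ⟨fun p => r (f p.1, min (ck d (f p.1)) p.2), (k + 2) * d, ?_, ?_⟩
    · have e1 : PT (fun p : W × ℕ => (f p.1, p.2)) := by fun_prop
      have e2 : PT (fun p : W × ℕ => min (ck d (f p.1)) p.2) := hc.comp e1
      fun_prop
    · intro x
      change f x ∈ A ↔ r (f x, min (ck d (f x)) (ck ((k + 2) * d) x)) = true
      have hle : ck d (f x) ≤ ck ((k + 2) * d) x := by
        apply V10_ck
        rw [pow_mul]
        apply Nat.pow_le_pow_left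
        have h6 := hk x
        have h7 : (x.length + 2) ^ (k + 2) = (x.length + 2) ^ k * (x.length + 2) ^ 2 := pow_add _ _ _
        have h8 : 1 ≤ (x.length + 2) ^ k := Nat.one_le_pow _ _ (by omega)
        have h9 : 2 ^ 2 ≤ (x.length + 2) ^ 2 := Nat.pow_le_pow_left (by omega) 2
        have h10 : (x.length + 2) ^ k * 2 ^ 2 ≤ (x.length + 2) ^ k * (x.length + 2) ^ 2 :=
          Nat.mul_le_mul_left _ h9
        omega
      rw [min_eq_left hle]
      exact hA (f x)
  · rintro A f ⟨r, d, hr, hA⟩ hf hinj hlen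
    have hc := h2 d
    refine ⟨fun p => (wdsc p.1.length p.2).any
      (fun x => eqb (f x) p.1 && r (x, min (ck d x) p.2)), d + 1, ?_, ?_⟩
    · have e1 : PT (fun p : W × ℕ => wdsc p.1.length p.2) := by
        have : PT (fun p : W × ℕ => (p.1.length, p.2)) := by fun_prop
        exact h3.comp this
      refine pt_any (f := fun (p : W × ℕ) (x : W) => eqb (f x) p.1 && r (x, min (ck d x) p.2))
        ?_ e1
      have e2 : PT (fun q : (W × ℕ) × W => min (ck d q.2) q.1.2) := by
        have : PT (fun q : (W × ℕ) × W => (q.2, q.1.2)) := by fun_prop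
        exact hc.comp this
      fun_prop
    · intro y
      change y ∈ f '' A ↔ (wdsc y.length (ck (d + 1) y)).any
        (fun x => eqb (f x) y && r (x, min (ck d x) (ck (d + 1) y))) = true
      have hw : wdsc y.length (ck (d + 1) y) = wds y.length := by
        unfold wdsc
        rw [if_pos]
        apply Nat.pow_le_pow_right (by norm_num)
        calc y.length ≤ y.length + 2 := by omega
          _ ≤ (y.length + 2) ^ (d + 1) := Nat.le_self_pow (by omega) _
      rw [hw, List.any_eq_true]
      have hck : ∀ x : W, x.length < y.length → ck d x ≤ ck (d + 1) y := by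
        intro x hx
        apply V10_ck
        calc (x.length + 2) ^ d ≤ (y.length + 2) ^ d := Nat.pow_le_pow_left (by omega) _
          _ ≤ (y.length + 2) ^ (d + 1) := Nat.pow_le_pow_right (by omega) (by omega)
      constructor
      · rintro ⟨x, hx, rfl⟩
        refine ⟨x, (h5 _ _).2 (hlen x), ?_⟩
        rw [min_eq_left (hck x (hlen x)), (hA x).1 hx, Bool.and_true]
        simp [eqb]
      · rintro ⟨x, hx, hx2⟩
        have hx3 := (h5 _ _).1 hx
        rw [min_eq_left (hck x hx3), Bool.and_eq_true] at hx2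
        refine ⟨x, (hA x).2 hx2.2, ?_⟩
        have := hx2.1
        simpa [eqb] using this

end Pool.Agent.RI
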