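import Pool.Agent.helper55.RI.Spec

/-!
Project ri (MP_2bd605_lc), module X4: one step of a machine.
-/

set_option autoImplicit false

namespace Pool.Agent.RI

open Pool.Agent.helper62 Prog Function Pool.Agent.helper81.PL

/-- Nested conditional over a list of labels. -/
def X4_F {Λ : Type} (nl : Λ → ℕ) (s : Λ → ℕ × ℕ × List (List ℕ) → ℕ × ℕ × List (List ℕ)) :
    List Λ → ℕ × ℕ × List (List ℕ) → ℕ × ℕ × List (List ℕ)
  | [], d => d
  | l :: L, d => bif eqb d.1 (nl l) then s l d else X4_F nl s L d

theorem X4_pt {Λ : Type} (nl : Λ → ℕ)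
    (s : Λ → ℕ × ℕ × List (List ℕ) → ℕ × ℕ × List (List ℕ)) (hs : ∀ l, PT (s l)) (L : List Λ) :
    PT (X4_F nl s L) := by
  induction L with
  | nil =>
    have h : X4_F nl s [] = fun d => d := rfl
    rw [h]
    exact PT.id
  | cons l L ih =>
    have h : X4_F nl s (l :: L) = fun d => bif eqb d.1 (nl l) then s l d else X4_F nl s L d := rfl
    rw [h]
    have h1 : PT (fun d : ℕ × ℕ × List (List ℕ) => eqb d.1 (nl l)) := by fun_prop
    exact PT.cond_of h1 (hs l) ih

theorem X4_none {Λ : Type} (nl : Λ → ℕ)
    (s : Λ → ℕ × ℕ × List (List ℕ) → ℕ × ℕ × List (List ℕ)) (L : List Λ)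
    (d : ℕ × ℕ × List (List ℕ)) (hd : ∀ l, d.1 ≠ nl l) : X4_F nl s L d = d := by
  induction L with
  | nil => rfl
  | cons l L ih =>
    have h1 : eqb d.1 (nl l) = false := by
      unfold eqb
      exact decide_eq_false (hd l)
    change (bif eqb d.1 (nl l) then s l d else X4_F nl s L d) = d
    rw [h1, cond_false, ih]

theorem X4_some {Λ : Type} (nl : Λ → ℕ) (hnl : Injective nl)
    (s : Λ → ℕ × ℕ × List (List ℕ) → ℕ × ℕ × List (List ℕ)) (L : List Λ)
    (d : ℕ × ℕ × List (List ℕ)) (l : Λ) (hl : l ∈ L) (hd : d.1 = nl l) :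
    X4_F nl s L d = s l d := by
  induction L with
  | nil => exact absurd hl (List.not_mem_nil)
  | cons l' L ih =>
    change (bif eqb d.1 (nl l') then s l' d else X4_F nl s L d) = s l d
    by_cases h : d.1 = nl l'
    · have h1 : eqb d.1 (nl l') = true := by
        unfold eqb
        exact decide_eq_true h
      have h2 : l' = l := hnl (h.symm.trans hd)
      rw [h1, cond_true, h2]
    · have h1 : eqb d.1 (nl l') = false := by
        unfold eqb
        exact decide_eq_false h
      rw [h1, cond_false]
      apply ih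
      rcases List.mem_cons.mp hl with h2 | h2
      · exact absurd (h2 ▸ hd) h
      · exact h2

/-- Module X4. -/
theorem X4 (h3 : X3_stmt) : X4_stmt := by
  intro K _ Γ Λ σ _ n m hm
  choose s hs C hC using fun l => h3 K Γ Λ σ n (m l) (hm l)
  have : Fintype Λ := Fintype.ofFinite Λ
  have hinj : Injective (fun l : Λ => n.nl (some l)) := fun a b h =>
    Option.some_injective _ (n.injl h)
  refine ⟨X4_F (fun l => n.nl (some l)) s (Finset.univ : Finset Λ).toList, X4_pt _ s hs _,
    ∑ l : Λ, C l, ?_⟩
  rintro ⟨l, v, S⟩ d hd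
  constructor
  · intro h
    cases l with
    | some l => simp [Turing.TM2.step] at h
    | none =>
      apply X4_none
      intro l' h'
      have h1 : n.nl none = n.nl (some l') := hd.1.symm.trans h'
      have h2 := n.injl h1
      simp at h2
  · intro c' h
    cases l with
    | none => simp [Turing.TM2.step] at h
    | some l =>
      have h1 : Turing.TM2.stepAux (m l) v S = c' := by
        simpa [Turing.TM2.step] using h
      rw [X4_some (fun l => n.nl (some l)) hinj s _ d l (by simp) hd.1, ← h1]
      have h2 := hC l (some l) v S d hd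
      refine ⟨h2.1, h2.2.trans ?_⟩
      have h3 : C l ≤ ∑ l : Λ, C l :=
        Finset.single_le_sum (f := C) (fun _ _ => Nat.zero_le _) (Finset.mem_univ l)
      omega

end Pool.Agent.RI
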